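import Pool.Agent.H874.AN.Exist
import Pool.Agent.H874.AN.Inst

/-!
# Total anisotropy fails for real projective 3-space in every characteristic different from two

Negative answer to Q1 of MP_e51eb1_co. The pseudomanifold is the triangulation of `RP^3` with 11
vertices; it is a closed orientable 3-manifold and so a pseudomanifold over every field.

Idea of the proof. Let `K` be an infinite field with `2 ≠ 0`, `p` a linear system of parameters and
`z ∈ K^4` a generic point; over `z` the face ring has one point `X_i` for every facet `i`. The
degree map is `f ↦ ∑ c_i f(X_i)` up to a scalar. Let `D = ∑ c_i y_i y'_i`, a form on the functions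
on the 40 facets. The linear functions `W_1` have dimension less than the number `n = 11` of the
vertices. The linear functions on the double cover `S^3` that change the sign under the antipodal
map give (after a choice of one lift of every facet) a totally isotropic subspace `E` of dimension
`n`, since their products are quadratic functions on `RP^3`. A function orthogonal to all edge
monomials `x_v x_w` is linear: its pull-back to `S^3` is linear by shelling `S^3`, and one can take
the average as `2 ≠ 0`. By a dimension count there is `e ∈ E` orthogonal to `W_1` and not in `W_1`;
it is a combination `u` of edge monomials with `u ^ 2 = 0` and `u ≠ 0` in `B^2`.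
-/

set_option autoImplicit false

namespace Pool.Agent.Results.MP_e51eb1_co.ProjectiveSpace

open Pool.Agent.H874.AN

universe u v

/-- There is a 3-dimensional pseudomanifold `Δ` with 11 vertices (a triangulation of `RP^3`) such
that for every infinite field `k` of characteristic different from two: `Δ` is a pseudomanifold
over `k` (it has a non-zero 3-cycle with coefficients in `k`), and for every extension field `K` of
`k`, every linear system of parameters over `K` and every fundamental cycle `μ` over `K` the degree
map `A^4 → K` of `μ` exists and the Artinian reduction is not totally anisotropic. -/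
theorem result :
    ∃ Δ : Set (Finset (Fin 11)), IsPseudomanifold 4 Δ ∧
      ∀ (k : Type u) [Field k] [Infinite k], (2 : k) ≠ 0 →
        (∃ μ : (Fin 4 → Fin 11) → k, IsCycle 4 Δ μ ∧ μ ≠ 0) ∧
        ∀ (K : Type v) [Field K] [Algebra k K] (p : Fin 11 → Fin 4 → K), IsLSOP Δ p →
          ∀ μ : (Fin 4 → Fin 11) → K, IsCycle 4 Δ μ → μ ≠ 0 →
            (∃ φ : Red Δ p →ₗ[K] K, IsDegreeMap μ p φ) ∧
            ∀ φ : Red Δ p →ₗ[K] K, IsDegreeMap μ p φ → ¬ TotallyAnisotropic φ := by
  refine ⟨cplx rp3, isPseudomanifold rp3, ?_⟩
  intro k _ _ h2
  refine ⟨exists_cycle rp3 k, ?_⟩
  intro K _ _ p hp μ hμ hμ0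
  have : Infinite K := Infinite.of_injective _ (algebraMap k K).injective
  have h2' : (2 : K) ≠ 0 := by
    intro h
    apply h2
    apply (algebraMap k K).injective
    rw [map_ofNat, map_zero, h]
  exact main h2' hp hμ hμ0

end Pool.Agent.Results.MP_e51eb1_co.ProjectiveSpace
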